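import Pool.Agent.H14.Rho2.RandDel
import Pool.Agent.H85.Rho.G2

/-!
# Random deletion: all primes `q > y (log log y)^2 / (log y)^2` are free
-/

set_option autoImplicit false

open Finset Real
open Pool.Agent.H85.Rho hiding PP MM TT

namespace Rho2

/-- random deletion for one `y` -/
theorem deletion_core {y : ℕ} (hy : 1 ≤ y) (S : Finset ℕ) (t P : ℝ) (ht : 0 ≤ t)
    (hP : Real.exp (7 / 8 * Real.log y) ≤ P) (hu : 2 ≤ Real.log y)
    (hu2 : 2 * Real.log y ≤ Real.exp (5 / 8 * Real.log y))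
    (htS : t * S.card ≤ Real.log y / 4 * P) :
    ∃ D ⊆ S, (D.card : ℝ) ≤ 2 * Real.exp (-t) * S.card + 1 ∧
      ∀ q : ℕ, q.Prime → P < q → q ≤ y → ∃ r < q, ∀ n ∈ S, n % q = r → n ∈ D := by
  classical
  have hy0 : (0 : ℝ) < y := by exact_mod_cast hy
  set u := Real.log (y : ℝ) with hudef
  have hyexp : Real.exp u = y := Real.exp_log hy0
  have hP0 : 0 < P := lt_of_lt_of_le (Real.exp_pos _) hP
  set Q : Finset ℕ := (Finset.Icc 1 y).filter (fun q : ℕ => q.Prime ∧ P < (q : ℝ)) with hQ
  have hQpos : ∀ q ∈ Q, 0 < q := fun q hq => (Finset.mem_filter.1 hq).2.1.pos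
  have hQcard : (Q.card : ℝ) ≤ y := by
    have h1 : Q.card ≤ y := by
      refine (Finset.card_filter_le _ _).trans ?_
      rw [Nat.card_Icc]; omega
    exact_mod_cast h1
  have hone : ∀ q ∈ Q, ∏ c ∈ Finset.range q, (1 - Real.exp (-t) ^ (cl S q c).card) ≤
      Real.exp (-(2 * u)) := by
    intro q hq
    have hq' := (Finset.mem_filter.1 hq).2
    have hq0 : (0 : ℝ) < q := by exact_mod_cast hq'.1.pos
    refine (prod_bound S hq'.1.pos ht).trans (Real.exp_le_exp.2 (neg_le_neg ?_))
    have h1 : t * S.card / q ≤ u / 4 := by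
      rw [div_le_iff₀ hq0]
      refine htS.trans ?_
      apply mul_le_mul_of_nonneg_left hq'.2.le
      linarith
    have h4 : Real.exp (5 / 8 * u) ≤ q * Real.exp (-(t * S.card / q)) := by
      calc Real.exp (5 / 8 * u) = Real.exp (7 / 8 * u) * Real.exp (-(u / 4)) := by
            rw [← Real.exp_add]; congr 1; ring
        _ ≤ q * Real.exp (-(t * S.card / q)) := by
            apply mul_le_mul (hP.trans hq'.2.le) _ (Real.exp_pos _).le hq0.le
            exact Real.exp_le_exp.2 (by linarith)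
    exact hu2.trans h4
  have hsmall : ∑ q ∈ Q, ∏ c ∈ Finset.range q, (1 - Real.exp (-t) ^ (cl S q c).card) ≤ 1 / 4 := by
    refine (Finset.sum_le_sum hone).trans ?_
    rw [Finset.sum_const, nsmul_eq_mul]
    calc (Q.card : ℝ) * Real.exp (-(2 * u)) ≤ y * Real.exp (-(2 * u)) := by gcongr
      _ = Real.exp (-u) := by rw [← hyexp, ← Real.exp_add]; congr 1; ring
      _ ≤ 1 / 4 := by
          rw [Real.exp_neg, inv_eq_one_div]
          apply one_div_le_one_div_of_le (by norm_num)
          have h1 : Real.exp 2 ≤ Real.exp u := Real.exp_le_exp.2 hu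
          have h2 : Real.exp 2 = Real.exp 1 * Real.exp 1 := by rw [← Real.exp_add]; norm_num
          have h3 := Real.exp_one_gt_d9
          nlinarith
  obtain ⟨D, hD, hDcard, hDq⟩ := exists_deletion Q hQpos S (Real.exp (-t)) (Real.exp_pos _).le
    (by rw [Real.exp_le_one_iff]; linarith) hsmall
  refine ⟨D, hD, hDcard, fun q hq hPq hqy => ?_⟩
  exact hDq q (Finset.mem_filter.2 ⟨Finset.mem_Icc.2 ⟨hq.pos, hqy⟩, hq, hPq⟩)

/-- **Random deletion.**  For large `y` and every `S ⊆ [1,y]` with `|S| ≤ 8 y / log y` there is a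
set `D ⊆ S` of size `O(y / (log y)^2)` which contains a full residue class of `S` modulo every prime
`q > y (log log y)^2 / (log y)^2`. -/
theorem deletion : ∀ᶠ y : ℕ in Filter.atTop, ∀ S ⊆ Finset.Icc 1 y,
    (S.card : ℝ) ≤ 8 * y / Real.log y →
    ∃ D ⊆ S, (D.card : ℝ) ≤ 17 * y / (Real.log y) ^ 2 ∧
      ∀ q : ℕ, q.Prime → (y : ℝ) * (Real.log (Real.log y)) ^ 2 / (Real.log y) ^ 2 < q → q ≤ y →
        ∃ r < q, ∀ n ∈ S, n % q = r → n ∈ D := by
  have hll : Filter.Tendsto (fun y : ℕ => Real.log (Real.log (y : ℝ))) Filter.atTop Filter.atTop :=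
    Real.tendsto_log_atTop.comp tendsto_logN
  filter_upwards [tendsto_logN.eventually_ge_atTop 100, ev_pow 2 (1 / 8) (by norm_num) 1,
    hll.eventually_ge_atTop 32, Filter.eventually_ge_atTop 3] with y hu hu2 hv hy3 S hS hSc
  set u := Real.log (y : ℝ) with hudef
  set v := Real.log u with hvdef
  have hy0 : (0 : ℝ) < y := by
    have : 0 < y := by omega
    exact_mod_cast this
  have hu0 : 0 < u := by linarith
  have hv0 : 0 < v := by linarith
  have hyexp : Real.exp u = y := Real.exp_log hy0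
  rw [one_mul] at hu2
  have hyu : 0 < (y : ℝ) / u ^ 2 := by positivity
  obtain ⟨D, hD, hDc, hDq⟩ := deletion_core (y := y) (by omega) S v ((y : ℝ) * v ^ 2 / u ^ 2)
    hv0.le (by
      rw [← hudef, le_div_iff₀ (by positivity), ← hyexp]
      have h1 : 1 ≤ v ^ 2 := by nlinarith
      calc Real.exp (7 / 8 * u) * u ^ 2 ≤ Real.exp (7 / 8 * u) * Real.exp (1 / 8 * u) := by gcongr
        _ = Real.exp u := by rw [← Real.exp_add]; congr 1; ring
        _ = Real.exp u * 1 := (mul_one _).symm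
        _ ≤ Real.exp u * v ^ 2 := by gcongr) (by rw [← hudef]; linarith) (by
      rw [← hudef]
      calc 2 * u ≤ u ^ 2 := by nlinarith
        _ ≤ Real.exp (1 / 8 * u) := hu2
        _ ≤ _ := Real.exp_le_exp.2 (by linarith)) (by
      rw [← hudef]
      calc v * S.card ≤ v * (8 * y / u) := by gcongr
        _ = (y / u) * v * 8 := by ring
        _ ≤ (y / u) * v * (v / 4) := by
            apply mul_le_mul_of_nonneg_left _ (by positivity)
            linarith
        _ = u / 4 * (y * v ^ 2 / u ^ 2) := by field_simp)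
  refine ⟨D, hD, hDc.trans ?_, hDq⟩
  have e1 : Real.exp (-v) = 1 / u := by
    rw [Real.exp_neg, hvdef, Real.exp_log hu0, one_div]
  have h1 : (1 : ℝ) ≤ y / u ^ 2 := by
    rw [le_div_iff₀ (by positivity), one_mul]
    calc u ^ 2 ≤ Real.exp (1 / 8 * u) := hu2
      _ ≤ Real.exp u := Real.exp_le_exp.2 (by linarith)
      _ = y := hyexp
  rw [e1]
  calc 2 * (1 / u) * S.card + 1 ≤ 2 * (1 / u) * (8 * y / u) + y / u ^ 2 := by
        gcongr
    _ = 17 * y / u ^ 2 := by field_simp; ring

end Rho2
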