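import Mathlib

/-!
# Random deletion

If `S` is a finite set of integers, `Q` a set of moduli and every element of `S` is deleted with
probability `σ`, then for a modulus `q` the residue classes of `S` are disjoint, so no class is
completely deleted with probability `∏ (1 - σ ^ |class|)`.  We use the derandomised form.
-/

set_option autoImplicit false

open Finset Real

namespace Rho2

/-- the elements of `S` in the class `c` mod `q` -/
def cl (S : Finset ℕ) (q c : ℕ) : Finset ℕ := S.filter (fun n => n % q = c)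

theorem mem_cl {S : Finset ℕ} {q c n : ℕ} : n ∈ cl S q c ↔ n ∈ S ∧ n % q = c := by
  unfold cl
  rw [mem_filter]

theorem cl_insert_ne {S : Finset ℕ} {n q c : ℕ} (h : n % q ≠ c) :
    cl (insert n S) q c = cl S q c := by
  unfold cl
  rw [filter_insert, if_neg h]

theorem cl_insert_same {S : Finset ℕ} {n q : ℕ} (hn : n ∉ S) :
    (cl (insert n S) q (n % q)).card = (cl S q (n % q)).card + 1 := by
  unfold cl
  rw [filter_insert, if_pos rfl, card_insert_of_notMem]
  intro h
  exact hn (mem_filter.1 h).1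

theorem derand (Q : Finset ℕ) (hQ : ∀ q ∈ Q, 0 < q) (σ l : ℝ) (h0 : 0 ≤ σ) (h1 : σ ≤ 1)
    (S : Finset ℕ) : ∀ x : ℕ → ℕ → ℝ, ∃ D ⊆ S,
    ∑ q ∈ Q, ∏ c ∈ range q, (1 - (if cl S q c ⊆ D then x q c else 0)) + l * D.card ≤
      ∑ q ∈ Q, ∏ c ∈ range q, (1 - x q c * σ ^ (cl S q c).card) + l * σ * S.card := by
  classical
  induction S using Finset.induction_on with
  | empty =>
    intro x
    refine ⟨∅, Subset.refl _, ?_⟩
    simp [cl]
  | insert n S hn ih =>
    intro x
    set x' : ℕ → ℕ → ℝ := fun q c => if c = n % q then 0 else x q c with hx'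
    obtain ⟨D1, hD1, e1⟩ := ih x
    obtain ⟨D0, hD0, e0⟩ := ih x'
    have key : ∑ q ∈ Q, ∏ c ∈ range q, (1 - x q c * σ ^ (cl (insert n S) q c).card) =
        σ * ∑ q ∈ Q, ∏ c ∈ range q, (1 - x q c * σ ^ (cl S q c).card) +
        (1 - σ) * ∑ q ∈ Q, ∏ c ∈ range q, (1 - x' q c * σ ^ (cl S q c).card) := by
      rw [mul_sum, mul_sum, ← sum_add_distrib]
      refine sum_congr rfl fun q hq => ?_
      have hc : n % q ∈ range q := mem_range.2 (Nat.mod_lt _ (hQ q hq))
      rw [← mul_prod_erase _ _ hc, ← mul_prod_erase _ _ hc, ← mul_prod_erase _ _ hc]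
      have a1 : ∏ c ∈ (range q).erase (n % q), (1 - x q c * σ ^ (cl (insert n S) q c).card) =
          ∏ c ∈ (range q).erase (n % q), (1 - x q c * σ ^ (cl S q c).card) := by
        refine prod_congr rfl fun c hc' => ?_
        rw [cl_insert_ne (ne_of_mem_erase hc').symm]
      have a2 : ∏ c ∈ (range q).erase (n % q), (1 - x' q c * σ ^ (cl S q c).card) =
          ∏ c ∈ (range q).erase (n % q), (1 - x q c * σ ^ (cl S q c).card) := by
        refine prod_congr rfl fun c hc' => ?_
        simp only [hx', if_neg (ne_of_mem_erase hc')]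
      rw [a1, a2, cl_insert_same hn]
      simp only [hx', if_true]
      ring
    have hcard : ((insert n S).card : ℝ) = S.card + 1 := by
      rw [card_insert_of_notMem hn]; push_cast; ring
    -- the two candidates
    have c1 : ∑ q ∈ Q, ∏ c ∈ range q,
        (1 - (if cl (insert n S) q c ⊆ insert n D1 then x q c else 0)) =
        ∑ q ∈ Q, ∏ c ∈ range q, (1 - (if cl S q c ⊆ D1 then x q c else 0)) := by
      refine sum_congr rfl fun q _ => prod_congr rfl fun c _ => ?_
      have : cl (insert n S) q c ⊆ insert n D1 ↔ cl S q c ⊆ D1 := by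
        constructor
        · intro h m hm
          have hmS := (mem_cl.1 hm)
          have h2 : m ∈ cl (insert n S) q c := mem_cl.2 ⟨mem_insert_of_mem hmS.1, hmS.2⟩
          rcases mem_insert.1 (h h2) with h3 | h3
          · exact absurd (h3 ▸ hmS.1) hn
          · exact h3
        · intro h m hm
          have hmS := mem_cl.1 hm
          rcases mem_insert.1 hmS.1 with h3 | h3
          · rw [h3]; exact mem_insert_self _ _
          · exact mem_insert_of_mem (h (mem_cl.2 ⟨h3, hmS.2⟩))
      simp only [this]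
    have c0 : ∑ q ∈ Q, ∏ c ∈ range q,
        (1 - (if cl (insert n S) q c ⊆ D0 then x q c else 0)) =
        ∑ q ∈ Q, ∏ c ∈ range q, (1 - (if cl S q c ⊆ D0 then x' q c else 0)) := by
      refine sum_congr rfl fun q _ => prod_congr rfl fun c _ => ?_
      by_cases hc : c = n % q
      · have h2 : ¬ cl (insert n S) q c ⊆ D0 := by
          intro h
          exact hn (hD0 (h (mem_cl.2 ⟨mem_insert_self _ _, hc.symm⟩)))
        rw [if_neg h2]
        simp only [hx', if_pos hc, ite_self]
      · rw [cl_insert_ne (fun h => hc h.symm)]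
        simp only [hx', if_neg hc]
    have d1 : ((insert n D1).card : ℝ) = D1.card + 1 := by
      rw [card_insert_of_notMem (fun h => hn (hD1 h))]; push_cast; ring
    by_cases hlt : ∑ q ∈ Q, ∏ c ∈ range q, (1 - (if cl S q c ⊆ D1 then x q c else 0)) +
        l * (D1.card + 1) ≤
      ∑ q ∈ Q, ∏ c ∈ range q, (1 - x q c * σ ^ (cl (insert n S) q c).card) +
        l * σ * (insert n S).card
    · refine ⟨insert n D1, insert_subset_insert _ hD1, ?_⟩
      rw [c1, d1]
      exact hlt
    · refine ⟨D0, hD0.trans (subset_insert _ _), ?_⟩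
      rw [c0]
      push Not at hlt
      rw [key, hcard] at hlt ⊢
      set R1 := ∑ q ∈ Q, ∏ c ∈ range q, (1 - x q c * σ ^ (cl S q c).card)
      set R0 := ∑ q ∈ Q, ∏ c ∈ range q, (1 - x' q c * σ ^ (cl S q c).card)
      set E1 := ∑ q ∈ Q, ∏ c ∈ range q, (1 - (if cl S q c ⊆ D1 then x q c else 0))
      set E0 := ∑ q ∈ Q, ∏ c ∈ range q, (1 - (if cl S q c ⊆ D0 then x' q c else 0))
      by_contra hcon
      push Not at hcon
      have f1 : σ * (E1 + l * D1.card) ≤ σ * (R1 + l * σ * S.card) :=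
        mul_le_mul_of_nonneg_left e1 h0
      have f0 : (1 - σ) * (E0 + l * D0.card) ≤ (1 - σ) * (R0 + l * σ * S.card) :=
        mul_le_mul_of_nonneg_left e0 (by linarith)
      set R := σ * R1 + (1 - σ) * R0 + l * σ * (S.card + 1) with hR
      have g1 : σ * R ≤ σ * (E1 + l * (D1.card + 1)) := mul_le_mul_of_nonneg_left hlt.le h0
      have g0 : (1 - σ) * R ≤ (1 - σ) * (E0 + l * D0.card) :=
        mul_le_mul_of_nonneg_left hcon.le (by linarith)
      rcases h0.lt_or_eq with hs | hs
      · have g1' : σ * R < σ * (E1 + l * (D1.card + 1)) := mul_lt_mul_of_pos_left hlt hs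
        nlinarith
      · have g0' : R < E0 + l * D0.card := hcon
        rw [← hs] at hR f0
        linarith

/-- **Random deletion.** -/
theorem exists_deletion (Q : Finset ℕ) (hQ : ∀ q ∈ Q, 0 < q) (S : Finset ℕ) (σ : ℝ) (h0 : 0 ≤ σ)
    (h1 : σ ≤ 1) (hsmall : ∑ q ∈ Q, ∏ c ∈ range q, (1 - σ ^ (cl S q c).card) ≤ 1 / 4) :
    ∃ D ⊆ S, (D.card : ℝ) ≤ 2 * σ * S.card + 1 ∧
      ∀ q ∈ Q, ∃ c < q, ∀ n ∈ S, n % q = c → n ∈ D := by
  classical
  set k : ℝ := σ * S.card with hk
  have hk0 : 0 ≤ k := by positivity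
  set l : ℝ := 1 / (2 * (k + 1)) with hl
  have hl0 : 0 < l := by positivity
  obtain ⟨D, hD, h⟩ := derand Q hQ σ l h0 h1 S (fun _ _ => 1)
  simp only [one_mul] at h
  have hfac : ∀ q c, (0 : ℝ) ≤ 1 - (if cl S q c ⊆ D then 1 else 0) := by
    intro q c
    split_ifs <;> norm_num
  have hE0 : ∀ q ∈ Q, (0 : ℝ) ≤ ∏ c ∈ range q, (1 - (if cl S q c ⊆ D then 1 else 0)) :=
    fun q _ => prod_nonneg fun c _ => hfac q c
  have hlk : l * σ * S.card = l * k := by rw [hk]; ring
  have hlk2 : l * k ≤ 1 / 2 := by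
    rw [hl, div_mul_eq_mul_div, one_mul, div_le_iff₀ (by positivity)]
    linarith
  rw [hlk] at h
  refine ⟨D, hD, ?_, ?_⟩
  · have h2 : l * (D.card : ℝ) ≤ 1 / 4 + l * k := by
      have := sum_nonneg hE0
      linarith
    have h3 : (D.card : ℝ) ≤ (1 / 4) / l + k := by
      rw [div_add' _ _ _ hl0.ne', le_div_iff₀ hl0]
      linarith
    have h4 : (1 / 4) / l = (k + 1) / 2 := by
      rw [hl]; field_simp; norm_num
    have h5 : 2 * σ * (S.card : ℝ) = 2 * k := by rw [hk]; ring
    rw [h4] at h3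
    rw [h5]
    linarith
  · intro q hq
    by_contra hcon
    push Not at hcon
    have h2 : ∏ c ∈ range q, (1 - (if cl S q c ⊆ D then (1 : ℝ) else 0)) = 1 := by
      refine prod_eq_one fun c hcq => ?_
      rw [if_neg, sub_zero]
      intro hsub
      obtain ⟨n, hn, hnc, hnD⟩ := hcon c (mem_range.1 hcq)
      exact hnD (hsub (mem_cl.2 ⟨hn, hnc⟩))
    have h3 := single_le_sum hE0 hq
    rw [h2] at h3
    have h4 : 0 ≤ l * (D.card : ℝ) := by positivity
    linarith

theorem sum_card_cl (S : Finset ℕ) {q : ℕ} (hq : 0 < q) :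
    ∑ c ∈ range q, (cl S q c).card = S.card := by
  unfold cl
  rw [← card_eq_sum_card_fiberwise (f := fun n => n % q)]
  intro n _
  exact mem_coe.2 (mem_range.2 (Nat.mod_lt _ hq))

/-- Jensen -/
theorem prod_bound (S : Finset ℕ) {q : ℕ} (hq : 0 < q) {t : ℝ} (ht : 0 ≤ t) :
    ∏ c ∈ range q, (1 - Real.exp (-t) ^ (cl S q c).card) ≤
      Real.exp (-(q * Real.exp (-(t * S.card / q)))) := by
  have hqR : (0 : ℝ) < q := by exact_mod_cast hq
  set a : ℝ := -(t * S.card / q) with ha
  have hle1 : Real.exp (-t) ≤ 1 := by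
    rw [Real.exp_le_one_iff]; linarith
  have h1 : ∏ c ∈ range q, (1 - Real.exp (-t) ^ (cl S q c).card) ≤
      ∏ c ∈ range q, Real.exp (-(Real.exp (-t) ^ (cl S q c).card)) := by
    refine prod_le_prod (fun c _ => ?_) (fun c _ => ?_)
    · have : Real.exp (-t) ^ (cl S q c).card ≤ 1 := pow_le_one₀ (Real.exp_pos _).le hle1
      linarith
    · have := Real.add_one_le_exp (-(Real.exp (-t) ^ (cl S q c).card))
      linarith
  refine h1.trans ?_
  rw [← Real.exp_sum, Real.exp_le_exp, sum_neg_distrib, neg_le_neg_iff]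
  have h2 : ∀ c ∈ range q, Real.exp a * (-(t * (cl S q c).card) - a + 1) ≤
      Real.exp (-t) ^ (cl S q c).card := by
    intro c _
    have e : Real.exp (-t) ^ (cl S q c).card =
        Real.exp a * Real.exp (-(t * (cl S q c).card) - a) := by
      rw [← Real.exp_add, ← Real.exp_nat_mul]
      congr 1
      ring
    rw [e]
    exact mul_le_mul_of_nonneg_left (Real.add_one_le_exp _) (Real.exp_pos _).le
  refine le_trans (le_of_eq ?_) (sum_le_sum h2)
  rw [← mul_sum, sum_add_distrib, sum_sub_distrib, sum_neg_distrib, ← mul_sum, sum_const,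
    sum_const, card_range, nsmul_eq_mul, nsmul_eq_mul]
  have h3 : ∑ c ∈ range q, ((cl S q c).card : ℝ) = S.card := by
    exact_mod_cast sum_card_cl S hq
  rw [h3, ha]
  field_simp
  ring

end Rho2
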