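import Pool.Agent.H7.RhoU.Mass

/-!
# Rankin's trick for the `w`-smooth numbers
-/

set_option autoImplicit false

open Finset Real
open Pool.Agent.H85.Rho hiding PP MM TT

namespace Rho2

/-- the Euler product `∏_{p ≤ w} (1 - p^(-η))⁻¹` -/
noncomputable def ZZ (w : ℕ) (η : ℝ) : ℝ := ∏ p ∈ pr 0 w, (1 - (p : ℝ) ^ (-η))⁻¹

theorem rpow_neg_lt_one {p : ℕ} (hp : p.Prime) {η : ℝ} (hη : 0 < η) : (p : ℝ) ^ (-η) < 1 := by
  have h2 : (1 : ℝ) < p := by exact_mod_cast hp.one_lt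
  exact Real.rpow_lt_one_of_one_lt_of_neg h2 (by linarith)

theorem ZZ_nonneg (w : ℕ) {η : ℝ} (hη : 0 < η) : 0 ≤ ZZ w η := by
  unfold ZZ
  refine prod_nonneg fun p hp => ?_
  have := rpow_neg_lt_one (mem_pr.1 hp).2 hη
  rw [inv_nonneg]
  linarith

/-- the Dirichlet series over the smooth numbers -/
theorem sum_rpow_le (w X : ℕ) {η : ℝ} (hη : 0 < η) :
    ∑ m ∈ Sm w X, (m : ℝ) ^ (-η) ≤ ZZ w η := by
  have h1 : ∑ m ∈ Sm w X, (m : ℝ) ^ (-η) ≤ ∑ e ∈ Bx w X, ((mk w e : ℕ) : ℝ) ^ (-η) := by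
    rw [← sum_image (f := fun m : ℕ => (m : ℝ) ^ (-η)) (g := mk w) (fun e _ e' _ h => mk_inj h)]
    refine sum_le_sum_of_subset_of_nonneg ?_ (fun m _ _ => by positivity)
    intro m hm
    rw [mem_image]
    exact RhoU.exists_mk w X m hm
  refine h1.trans ?_
  have h2 : ∀ e : PT w → ℕ, ((mk w e : ℕ) : ℝ) ^ (-η) = ∏ i : PT w, (((i : ℕ) : ℝ) ^ (-η)) ^ e i := by
    intro e
    have h3 : ((mk w e : ℕ) : ℝ) = ∏ i : PT w, ((i : ℕ) : ℝ) ^ e i := by
      unfold Pool.Agent.H85.Rho.mk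
      push_cast
      rfl
    rw [h3, ← Real.finsetProd_rpow _ _ (fun i _ => by positivity)]
    refine prod_congr rfl fun i _ => ?_
    rw [← Real.rpow_natCast, ← Real.rpow_mul (Nat.cast_nonneg _), ← Real.rpow_natCast,
      ← Real.rpow_mul (Nat.cast_nonneg _)]
    congr 1
    ring
  simp_rw [h2]
  unfold Bx
  rw [← prod_univ_sum (fun _ : PT w => range (X + 1)) (fun i k => (((i : ℕ) : ℝ) ^ (-η)) ^ k)]
  unfold ZZ
  rw [← prod_coe_sort (pr 0 w) (fun p : ℕ => (1 - (p : ℝ) ^ (-η))⁻¹)]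
  refine prod_le_prod (fun i _ => sum_nonneg fun k _ => by positivity) (fun i _ => ?_)
  have h3 := rpow_neg_lt_one (PT_prime i) hη
  have h4 : (0 : ℝ) ≤ ((i : ℕ) : ℝ) ^ (-η) := by positivity
  rw [← tsum_geometric_of_lt_one h4 h3]
  exact (summable_geometric_of_lt_one h4 h3).sum_le_tsum _ (fun j _ => pow_nonneg h4 j)

/-- `∑_{n ≤ w} n^(-(1-β)) ≤ w^β / β` -/
theorem sum_rpow_nat {β : ℝ} (hβ : 0 < β) (hβ1 : β ≤ 1) (w : ℕ) :
    ∑ n ∈ Finset.Ioc 0 w, (n : ℝ) ^ (-(1 - β)) ≤ (w : ℝ) ^ β / β := by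
  induction w with
  | zero => simp; positivity
  | succ w ih =>
    rw [Finset.sum_Ioc_succ_top (Nat.zero_le w)]
    have hw0 : (0 : ℝ) < (w : ℝ) + 1 := by positivity
    have h1 : ((w : ℝ) / (w + 1)) ^ β ≤ 1 - β / (w + 1) := by
      have h2 := _root_.rpow_one_add_le_one_add_mul_self (s := -(1 / ((w : ℝ) + 1))) (p := β) (by
        rw [neg_le_neg_iff, div_le_one hw0]
        linarith [(Nat.cast_nonneg w : (0 : ℝ) ≤ w)]) hβ.le hβ1
      have e1 : 1 + -(1 / ((w : ℝ) + 1)) = w / (w + 1) := by field_simp; ring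
      rw [e1] at h2
      refine h2.trans (le_of_eq ?_)
      ring
    have h3 : (w : ℝ) ^ β ≤ ((w : ℝ) + 1) ^ β - β * ((w : ℝ) + 1) ^ (-(1 - β)) := by
      have e2 : ((w : ℝ) + 1) ^ (-(1 - β)) = ((w : ℝ) + 1) ^ β / ((w : ℝ) + 1) := by
        rw [show -(1 - β) = β - 1 by ring, Real.rpow_sub_one hw0.ne']
      have e3 : (w : ℝ) ^ β = ((w : ℝ) / (w + 1)) ^ β * ((w : ℝ) + 1) ^ β := by
        rw [← Real.mul_rpow (by positivity) hw0.le]
        congr 1
        field_simp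
      rw [e2, e3]
      calc ((w : ℝ) / (w + 1)) ^ β * ((w : ℝ) + 1) ^ β ≤ (1 - β / (w + 1)) * ((w : ℝ) + 1) ^ β := by
            gcongr
        _ = _ := by ring
    push_cast
    rw [le_div_iff₀ hβ] at ih ⊢
    nlinarith

/-- bound of the Euler product -/
theorem ZZ_le {β : ℝ} (hβ : 0 < β) (hβ1 : β < 1) : ∃ K : ℝ, 0 < K ∧ ∀ w : ℕ,
    ZZ w (1 - β) ≤ Real.exp (K * (w : ℝ) ^ β) := by
  have h20 : (2 : ℝ) ^ (-(1 - β)) < 1 := Real.rpow_lt_one_of_one_lt_of_neg (by norm_num) (by linarith)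
  set d : ℝ := 1 - (2 : ℝ) ^ (-(1 - β)) with hd
  have hd0 : 0 < d := by rw [hd]; linarith
  refine ⟨1 / (d * β), by positivity, fun w => ?_⟩
  unfold ZZ
  have h1 : ∀ p ∈ pr 0 w, (1 - (p : ℝ) ^ (-(1 - β)))⁻¹ ≤ Real.exp ((1 / d) * (p : ℝ) ^ (-(1 - β))) := by
    intro p hp
    have hpp := (mem_pr.1 hp).2
    have hp2 : (2 : ℝ) ≤ p := by exact_mod_cast hpp.two_le
    set x : ℝ := (p : ℝ) ^ (-(1 - β)) with hx
    have hx0 : 0 < x := by rw [hx]; positivity
    have hx2 : x ≤ (2 : ℝ) ^ (-(1 - β)) := by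
      rw [hx]
      exact Real.rpow_le_rpow_of_nonpos (by norm_num) hp2 (by linarith)
    have hx1 : d ≤ 1 - x := by rw [hd]; linarith
    have hx1' : 0 < 1 - x := by linarith
    have h3 : (1 - x)⁻¹ = 1 + x / (1 - x) := by field_simp; ring
    rw [h3]
    have h4 : x / (1 - x) ≤ 1 / d * x := by
      rw [one_div_mul_eq_div]
      gcongr
    have h5 := Real.add_one_le_exp (1 / d * x)
    linarith
  calc ∏ p ∈ pr 0 w, (1 - (p : ℝ) ^ (-(1 - β)))⁻¹ ≤
        ∏ p ∈ pr 0 w, Real.exp ((1 / d) * (p : ℝ) ^ (-(1 - β))) := by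
        refine prod_le_prod (fun p hp => ?_) h1
        have := rpow_neg_lt_one (mem_pr.1 hp).2 (show 0 < 1 - β by linarith)
        rw [inv_nonneg]; linarith
    _ = Real.exp (1 / d * ∑ p ∈ pr 0 w, (p : ℝ) ^ (-(1 - β))) := by
        rw [← Real.exp_sum, mul_sum]
    _ ≤ Real.exp (1 / d * ((w : ℝ) ^ β / β)) := by
        apply Real.exp_le_exp.2
        apply mul_le_mul_of_nonneg_left _ (by positivity)
        refine le_trans ?_ (sum_rpow_nat hβ hβ1.le w)
        refine sum_le_sum_of_subset_of_nonneg ?_ (fun n _ _ => by positivity)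
        unfold pr
        exact filter_subset _ _
    _ = _ := by congr 1; field_simp

/-- the tail of the mass -/
theorem tail_rankin (w X M : ℕ) (hM : 1 ≤ M) {β : ℝ} (hβ : 0 < β) (hβ1 : β < 1) :
    ∑ m ∈ (Sm w X).filter (fun m => M < m), (1 : ℝ) / m ≤ (M : ℝ) ^ (-β) * ZZ w (1 - β) := by
  have hM0 : (0 : ℝ) < M := by exact_mod_cast hM
  calc ∑ m ∈ (Sm w X).filter (fun m => M < m), (1 : ℝ) / m ≤
        ∑ m ∈ (Sm w X).filter (fun m => M < m), (M : ℝ) ^ (-β) * (m : ℝ) ^ (-(1 - β)) := by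
        refine sum_le_sum fun m hm => ?_
        have hm' := (mem_filter.1 hm).2
        have hmM : (M : ℝ) ≤ m := by exact_mod_cast hm'.le
        have hm0 : (0 : ℝ) < m := by linarith
        have e : (1 : ℝ) / m = (m : ℝ) ^ (-β) * (m : ℝ) ^ (-(1 - β)) := by
          rw [← Real.rpow_add hm0, show -β + -(1 - β) = -1 by ring, Real.rpow_neg_one, one_div]
        rw [e]
        apply mul_le_mul_of_nonneg_right _ (by positivity)
        exact Real.rpow_le_rpow_of_nonpos hM0 hmM (by linarith)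
    _ = (M : ℝ) ^ (-β) * ∑ m ∈ (Sm w X).filter (fun m => M < m), (m : ℝ) ^ (-(1 - β)) := by
        rw [mul_sum]
    _ ≤ (M : ℝ) ^ (-β) * ∑ m ∈ Sm w X, (m : ℝ) ^ (-(1 - β)) := by
        apply mul_le_mul_of_nonneg_left _ (by positivity)
        exact sum_le_sum_of_subset_of_nonneg (filter_subset _ _) (fun m _ _ => by positivity)
    _ ≤ _ := mul_le_mul_of_nonneg_left (sum_rpow_le w X (by linarith)) (by positivity)

/-- the tail of the logarithmic mass -/
theorem log_tail (w X M : ℕ) (hM : 1 ≤ M) {β : ℝ} (hβ : 0 < β) (hβ1 : β < 1) :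
    ∑ m ∈ (Sm w X).filter (fun m => M < m), Real.log m / m ≤
      2 / β * (M : ℝ) ^ (-(β / 2)) * ZZ w (1 - β) := by
  have hM0 : (0 : ℝ) < M := by exact_mod_cast hM
  calc ∑ m ∈ (Sm w X).filter (fun m => M < m), Real.log m / m ≤
        ∑ m ∈ (Sm w X).filter (fun m => M < m),
          2 / β * (M : ℝ) ^ (-(β / 2)) * (m : ℝ) ^ (-(1 - β)) := by
        refine sum_le_sum fun m hm => ?_
        have hm' := (mem_filter.1 hm).2
        have hmM : (M : ℝ) ≤ m := by exact_mod_cast hm'.le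
        have hm0 : (0 : ℝ) < m := by linarith
        have h1 : Real.log m ≤ (m : ℝ) ^ (β / 2) / (β / 2) :=
          Real.log_le_rpow_div hm0.le (by linarith)
        have e : (m : ℝ) ^ (β / 2) / m = (m : ℝ) ^ (-(β / 2)) * (m : ℝ) ^ (-(1 - β)) := by
          rw [← Real.rpow_sub_one hm0.ne', ← Real.rpow_add hm0]
          congr 1; ring
        calc Real.log m / m ≤ (m : ℝ) ^ (β / 2) / (β / 2) / m := by gcongr
          _ = 2 / β * ((m : ℝ) ^ (β / 2) / m) := by field_simp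
          _ = 2 / β * ((m : ℝ) ^ (-(β / 2)) * (m : ℝ) ^ (-(1 - β))) := by rw [e]
          _ ≤ 2 / β * ((M : ℝ) ^ (-(β / 2)) * (m : ℝ) ^ (-(1 - β))) := by
              apply mul_le_mul_of_nonneg_left _ (by positivity)
              apply mul_le_mul_of_nonneg_right _ (by positivity)
              exact Real.rpow_le_rpow_of_nonpos hM0 hmM (by linarith)
          _ = _ := by ring
    _ = 2 / β * (M : ℝ) ^ (-(β / 2)) *
          ∑ m ∈ (Sm w X).filter (fun m => M < m), (m : ℝ) ^ (-(1 - β)) := by rw [mul_sum]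
    _ ≤ 2 / β * (M : ℝ) ^ (-(β / 2)) * ∑ m ∈ Sm w X, (m : ℝ) ^ (-(1 - β)) := by
        apply mul_le_mul_of_nonneg_left _ (by positivity)
        exact sum_le_sum_of_subset_of_nonneg (filter_subset _ _) (fun m _ _ => by positivity)
    _ ≤ _ := mul_le_mul_of_nonneg_left (sum_rpow_le w X (by linarith)) (by positivity)

/-- the number of smooth numbers -/
theorem card_rankin (w M : ℕ) (hM : 1 ≤ M) {β : ℝ} (hβ1 : β < 1) :
    ((Sm w M).card : ℝ) ≤ (M : ℝ) ^ (1 - β) * ZZ w (1 - β) := by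
  have hM0 : (0 : ℝ) < M := by exact_mod_cast hM
  have h1 : ((Sm w M).card : ℝ) = ∑ m ∈ Sm w M, (1 : ℝ) := by
    rw [sum_const, nsmul_eq_mul, mul_one]
  rw [h1]
  calc ∑ m ∈ Sm w M, (1 : ℝ) ≤ ∑ m ∈ Sm w M, (M : ℝ) ^ (1 - β) * (m : ℝ) ^ (-(1 - β)) := by
        refine sum_le_sum fun m hm => ?_
        have hm' := (mem_Sm.1 hm).1
        have hm0 : (0 : ℝ) < m := by exact_mod_cast hm'.1
        have hmM : (m : ℝ) ≤ M := by exact_mod_cast hm'.2
        rw [Real.rpow_neg hm0.le, ← div_eq_mul_inv, one_le_div (by positivity)]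
        exact Real.rpow_le_rpow hm0.le hmM (by linarith)
    _ = (M : ℝ) ^ (1 - β) * ∑ m ∈ Sm w M, (m : ℝ) ^ (-(1 - β)) := by rw [mul_sum]
    _ ≤ _ := mul_le_mul_of_nonneg_left (sum_rpow_le w M (by linarith)) (by positivity)

/-- lower bound of the mass, from a bound of the tail -/
theorem mass_lower_of (w M : ℕ) (τ : ℝ)
    (hτ : ∀ X : ℕ, ∑ m ∈ (Sm w X).filter (fun m => M < m), (1 : ℝ) / m ≤ τ) :
    1 - τ ≤ ∑ m ∈ Sm w M, fw w m / m := by
  have key : ∀ R : ℕ, 1 - τ ≤ ∑ m ∈ Sm w M, fw w m / m + w * ((2:ℝ) ^ R)⁻¹ := by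
    intro R
    have hb := box_mass w R
    obtain ⟨J, hJ⟩ : ∃ J : ℕ, ∀ e ∈ Bx w R, mk w e ≤ J :=
      ⟨∑ e ∈ Bx w R, mk w e, fun e he => single_le_sum (fun _ _ => Nat.zero_le _) he⟩
    have hsplit : ∑ e ∈ Bx w R, fw w (mk w e) / (mk w e : ℝ) ≤
        ∑ m ∈ Sm w M, fw w m / m +
        ∑ m ∈ (Sm w J).filter (fun m => M < m), (1:ℝ) / m := by
      rw [← sum_filter_add_sum_filter_not (Bx w R) (fun e => mk w e ≤ M)]
      refine add_le_add ?_ ?_
      · rw [← sum_image (f := fun m : ℕ => fw w m / (m:ℝ)) (g := mk w)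
          (fun e _ e' _ h => mk_inj h)]
        refine sum_le_sum_of_subset_of_nonneg ?_ (fun m _ _ =>
          div_nonneg (fw_nonneg w m) (by positivity))
        intro m hm
        rw [mem_image] at hm
        obtain ⟨e, he, rfl⟩ := hm
        exact mk_mem e M (mem_filter.mp he).2
      · calc _ ≤ ∑ e ∈ (Bx w R).filter (fun e => ¬ mk w e ≤ M), (1:ℝ) / (mk w e : ℝ) := by
              refine sum_le_sum fun e _ => ?_
              exact div_le_div_of_nonneg_right (fw_le_one w _) (by positivity)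
          _ = ∑ m ∈ ((Bx w R).filter (fun e => ¬ mk w e ≤ M)).image (mk w), (1:ℝ) / (m:ℝ) :=
              (sum_image (f := fun m : ℕ => (1:ℝ) / (m:ℝ)) (g := mk w)
                (fun e _ e' _ h => mk_inj h)).symm
          _ ≤ _ := by
              refine sum_le_sum_of_subset_of_nonneg ?_ (fun m _ _ => by positivity)
              intro m hm
              rw [mem_image] at hm
              obtain ⟨e, he, rfl⟩ := hm
              rw [mem_filter] at he
              rw [mem_filter]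
              exact ⟨mk_mem e _ (hJ e he.1), by omega⟩
    have ht := hτ J
    linarith
  have hlim : Filter.Tendsto (fun R : ℕ => ∑ m ∈ Sm w M, fw w m / (m:ℝ) + w * ((2:ℝ) ^ R)⁻¹)
      Filter.atTop (nhds (∑ m ∈ Sm w M, fw w m / (m:ℝ) + w * 0)) := by
    refine Filter.Tendsto.const_add _ (Filter.Tendsto.const_mul _ ?_)
    have := tendsto_pow_atTop_nhds_zero_of_lt_one (r := (1/2:ℝ)) (by norm_num) (by norm_num)
    refine this.congr fun R => ?_
    rw [one_div, inv_pow]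
  rw [mul_zero, add_zero] at hlim
  exact ge_of_tendsto' hlim key

/-- the logarithmic gain, from a bound of the logarithmic tail -/
theorem gain_of : ∃ C : ℝ, 0 < C ∧ ∀ w M : ℕ, 1 ≤ w → ∀ τ : ℝ,
    (∀ X : ℕ, ∑ m ∈ (Sm w X).filter (fun m => M < m), Real.log m / m ≤ τ) →
    Real.log w - C - τ ≤ ∑ m ∈ Sm w M, fw w m / m * Real.log m := by
  obtain ⟨C, hC, hg⟩ := RhoU.gain
  refine ⟨C, hC, fun w M hw τ hτ => ?_⟩
  set X := max (4 ^ (w * w)) M with hX
  have h1 := hg w X hw (le_max_left _ _)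
  have h2 : ∑ m ∈ Sm w X, fw w m / m * Real.log m ≤
      ∑ m ∈ Sm w M, fw w m / m * Real.log m +
      ∑ m ∈ (Sm w X).filter (fun m => M < m), Real.log m / m := by
    rw [← sum_filter_add_sum_filter_not (Sm w X) (fun m => m ≤ M)]
    refine add_le_add ?_ ?_
    · refine sum_le_sum_of_subset_of_nonneg ?_ (fun m hm _ => ?_)
      · intro m hm
        rw [mem_filter, mem_Sm] at hm
        rw [mem_Sm]
        exact ⟨⟨hm.1.1.1, hm.2⟩, hm.1.2⟩
      · exact mul_nonneg (div_nonneg (fw_nonneg w m) (Nat.cast_nonneg _))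
          (Real.log_natCast_nonneg m)
    · have e : (Sm w X).filter (fun m => ¬ m ≤ M) = (Sm w X).filter (fun m => M < m) := by
        refine filter_congr fun m _ => ?_
        omega
      rw [e]
      refine sum_le_sum fun m hm => ?_
      have h3 := fw_le_one w m
      have h4 : 0 ≤ Real.log m := Real.log_natCast_nonneg m
      have h5 : fw w m / m * Real.log m = fw w m * (Real.log m / m) := by ring
      rw [h5]
      exact mul_le_of_le_one_left (div_nonneg h4 (Nat.cast_nonneg _)) h3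
  have h3 := hτ X
  linarith

end Rho2
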