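import Pool.Agent.H14.Rho2.Del
import Pool.Agent.H85.Rho.Asm

/-!
# Only the primes up to `K y log log y / (log y)^2` matter for dense admissible sets
-/

set_option autoImplicit false

open Finset Real
open Pool.Agent.H85.Rho hiding PP MM TT

namespace Rho2

/-- a set in `[1,y]` missing a class modulo every prime up to `(y+1)^(1/8)` has `O(y / log y)`
elements -/
theorem sieve_bound : ∃ C : ℝ, 0 < C ∧ ∀ y : ℕ, 2 ≤ y → ∀ S ⊆ Finset.Icc 1 y,
    (∀ p : ℕ, p.Prime → (p : ℝ) ≤ ((y : ℝ) + 1) ^ (1 / 8 : ℝ) →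
      ∃ c : ℕ, ∀ a ∈ S, ¬ a ≡ c [MOD p]) →
    (S.card : ℝ) ≤ C * (y / Real.log y) := by
  obtain ⟨C1, hC1, hsv⟩ := sieve_ap
  refine ⟨2 * C1, by positivity, fun y hy S hS h => ?_⟩
  have hyR : (2 : ℝ) ≤ y := by exact_mod_cast hy
  have hL : 0 < Real.log y := Real.log_pos (by linarith)
  set X := y + 1 with hX
  set R := ⌊(X : ℝ) ^ (1 / 8 : ℝ)⌋₊ with hR
  have hXR : (X : ℝ) = (y : ℝ) + 1 := by rw [hX]; push_cast; ring
  have hc : ∀ l : ℕ, ∃ c : ℕ, l ∈ pr 2 R → ∀ a ∈ S, ¬ a ≡ c [MOD l] := by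
    intro l
    by_cases hl : l ∈ pr 2 R
    · have hl' := mem_pr.1 hl
      obtain ⟨c, hc⟩ := h l hl'.2 (by
        rw [← hXR]
        have h1 : (l : ℝ) ≤ R := by exact_mod_cast hl'.1.2
        exact h1.trans (Nat.floor_le (by positivity)))
      exact ⟨c, fun _ => hc⟩
    · exact ⟨0, fun h => absurd h hl⟩
  choose c hc using hc
  have hs : ∀ i ∈ pr 2 R, (id i : ℕ) ≠ 0 := fun i hi => (mem_pr.1 hi).2.ne_zero
  have pp : Set.Pairwise (pr 2 R : Set ℕ) (Function.onFun Nat.Coprime id) := by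
    intro a ha b hb hab
    exact (Nat.coprime_primes (mem_pr.1 ha).2 (mem_pr.1 hb).2).2 hab
  obtain ⟨b, hb⟩ := Nat.chineseRemainderOfFinset (fun l => l - (c l) % l) id (pr 2 R) hs pp
  have hbl : ∀ l ∈ pr 2 R, b + c l ≡ 0 [MOD l] := by
    intro l hl
    have h1 := hb l hl
    simp only [id] at h1
    have hlpos := (mem_pr.1 hl).2.pos
    have h3 : b + c l ≡ (l - (c l) % l) + (c l) % l [MOD l] :=
      h1.add (Nat.mod_modEq _ _).symm
    rw [Nat.sub_add_cancel (Nat.mod_lt _ hlpos).le] at h3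
    exact h3.trans (by simp [Nat.ModEq])
  have hsub : S ⊆ (Finset.range X).filter (fun t => ∀ l ∈ pr 2 R, ¬ l ∣ b + 1 * t) := by
    intro t ht
    rw [Finset.mem_filter, Finset.mem_range]
    refine ⟨by have := Finset.mem_Icc.1 (hS ht); omega, fun l hl hdvd => ?_⟩
    rw [one_mul] at hdvd
    have h1 : b + t ≡ b + c l [MOD l] := ((Nat.modEq_zero_iff_dvd).2 hdvd).trans (hbl l hl).symm
    exact hc l hl t ht (Nat.ModEq.add_left_cancel' b h1)
  have h1 : (S.card : ℝ) ≤ C1 * X * Real.log (2 : ℕ) / Real.log X := by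
    refine le_trans ?_ (hsv 2 le_rfl 1 b X (by omega) (fun l hl h2 h3 => ?_))
    · exact_mod_cast Finset.card_le_card hsub
    · have := Nat.dvd_one.1 h3
      omega
  refine h1.trans ?_
  have h2 : Real.log (2 : ℕ) ≤ 1 := by
    have := Real.log_two_lt_d9
    push_cast
    linarith
  have h3 : Real.log y ≤ Real.log X := by
    apply Real.log_le_log (by linarith)
    rw [hXR]; linarith
  have h4 : (X : ℝ) ≤ 2 * y * 1 := by rw [hXR]; linarith
  have h20 : 0 ≤ Real.log (2 : ℕ) := Real.log_natCast_nonneg 2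
  calc C1 * X * Real.log (2 : ℕ) / Real.log X ≤ C1 * (2 * y * 1) * 1 / Real.log y := by
        gcongr
    _ = 2 * C1 * (y / Real.log y) := by ring

theorem reduce_aux (B : ℝ) (hB : 1 ≤ B) : ∃ K : ℝ, 1 ≤ K ∧
    ∀ᶠ y : ℕ in Filter.atTop, ∀ S ⊆ Finset.Icc 1 y,
    (∀ p : ℕ, p.Prime → (p : ℝ) ≤ K * (y * Real.log (Real.log y) / (Real.log y) ^ 2) →
      ∃ c : ℕ, ∀ a ∈ S, ¬ a ≡ c [MOD p]) →
    ∃ A ⊆ S, Adm A ∧ (S.card : ℝ) - y / (Real.log y) ^ B ≤ A.card := by
  classical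
  obtain ⟨C, hC, hsb⟩ := sieve_bound
  set K : ℝ := max (4 * (B + 1) * C) 1 with hK
  have hK1 : 1 ≤ K := le_max_right _ _
  have hKC : 4 * (B + 1) * C ≤ K := le_max_left _ _
  refine ⟨K, hK1, ?_⟩
  have hll : Filter.Tendsto (fun y : ℕ => Real.log (Real.log (y : ℝ))) Filter.atTop Filter.atTop :=
    Real.tendsto_log_atTop.comp tendsto_logN
  filter_upwards [tendsto_logN.eventually_ge_atTop (100 + 4 * C), ev_pow 2 (1 / 8) (by norm_num) 1,
    ev_pow ⌈B⌉₊ 1 (by norm_num) 2, hll.eventually_ge_atTop 1, Filter.eventually_ge_atTop 3] with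
    y hu hu2 huB hv1 hy3 S hS hmiss
  set u := Real.log (y : ℝ) with hudef
  set v := Real.log u with hvdef
  have hy0 : (0 : ℝ) < y := by
    have : 0 < y := by omega
    exact_mod_cast this
  have hu0 : 0 < u := by linarith
  have hu1 : 1 ≤ u := by linarith
  have hyexp : Real.exp u = y := Real.exp_log hy0
  rw [one_mul] at hu2
  rw [one_mul, hyexp] at huB
  set P : ℝ := K * (y * v / u ^ 2) with hPdef
  have hP : Real.exp (7 / 8 * u) ≤ P := by
    have h1 : Real.exp (7 / 8 * u) ≤ y / u ^ 2 := by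
      rw [le_div_iff₀ (by positivity), ← hyexp]
      calc Real.exp (7 / 8 * u) * u ^ 2 ≤ Real.exp (7 / 8 * u) * Real.exp (1 / 8 * u) := by
            gcongr
        _ = Real.exp u := by rw [← Real.exp_add]; congr 1; ring
    refine h1.trans ?_
    have h2 : 1 ≤ K * v := by nlinarith
    calc (y : ℝ) / u ^ 2 = 1 * (y / u ^ 2) := (one_mul _).symm
      _ ≤ (K * v) * (y / u ^ 2) := by gcongr
      _ = P := by rw [hPdef]; ring
  have hP0 : 0 < P := lt_of_lt_of_le (Real.exp_pos _) hP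
  -- size of `S`
  have hScard : (S.card : ℝ) ≤ C * (y / u) := by
    refine hsb y (by omega) S hS fun p hp hpy => hmiss p hp ?_
    refine hpy.trans (le_trans ?_ hP)
    have h1 : (y : ℝ) + 1 ≤ y ^ (2 : ℝ) := by
      have h2 : (3 : ℝ) ≤ y := by exact_mod_cast hy3
      rw [Real.rpow_two]
      nlinarith
    calc ((y : ℝ) + 1) ^ (1 / 8 : ℝ) ≤ ((y : ℝ) ^ (2 : ℝ)) ^ (1 / 8 : ℝ) :=
          Real.rpow_le_rpow (by positivity) h1 (by norm_num)
      _ = Real.exp (1 / 4 * u) := by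
          rw [← Real.rpow_mul hy0.le, Real.rpow_def_of_pos hy0, ← hudef]
          congr 1; ring
      _ ≤ _ := Real.exp_le_exp.2 (by linarith)
  have hSy : S.card ≤ y := by
    have := Finset.card_le_card hS
    rw [Nat.card_Icc] at this
    omega
  have hv0 : 0 < v := by linarith
  obtain ⟨D, hD, hDcard, hDq⟩ := deletion_core (y := y) (by omega) S ((B + 1) * v) P
    (by positivity) hP (by rw [← hudef]; linarith) (by
      rw [← hudef]
      calc 2 * u ≤ u ^ 2 := by nlinarith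
        _ ≤ Real.exp (1 / 8 * u) := hu2
        _ ≤ _ := Real.exp_le_exp.2 (by linarith)) (by
      rw [← hudef]
      calc (B + 1) * v * S.card ≤ (B + 1) * v * (C * (y / u)) := by gcongr
        _ = (4 * (B + 1) * C) * (y * v / u / 4) := by ring
        _ ≤ K * (y * v / u / 4) := by gcongr
        _ = u / 4 * P := by rw [hPdef]; field_simp)
  refine ⟨S \ D, Finset.sdiff_subset, ?_, ?_⟩
  · intro p hp
    by_cases hp1 : (p : ℝ) ≤ P
    · obtain ⟨c, hc⟩ := hmiss p hp hp1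
      exact ⟨c, fun a ha => hc a (Finset.sdiff_subset ha)⟩
    · by_cases hp2 : p ≤ y
      · push Not at hp1
        obtain ⟨c, hcp, hc⟩ := hDq p hp hp1 hp2
        refine ⟨c, fun a ha hac => ?_⟩
        have ha' := Finset.mem_sdiff.1 ha
        apply ha'.2
        apply hc a ha'.1
        have h1 : a % p = c % p := hac
        rw [h1, Nat.mod_eq_of_lt hcp]
      · apply misses
        refine lt_of_le_of_lt (Finset.card_le_card Finset.sdiff_subset) (by omega)
  · have h1 : (S.card : ℝ) ≤ (S \ D).card + D.card := by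
      have := Finset.card_sdiff_add_card_eq_card hD
      exact_mod_cast this.ge
    have hyB : 0 < y / u ^ B := by positivity
    have h2 : (1 : ℝ) ≤ 1 / 2 * (y / u ^ B) := by
      have h3 : u ^ B ≤ u ^ ⌈B⌉₊ := by
        rw [← Real.rpow_natCast]
        exact Real.rpow_le_rpow_of_exponent_le hu1 (Nat.le_ceil B)
      rw [mul_div_assoc', le_div_iff₀ (by positivity)]
      linarith
    have h4 : 2 * Real.exp (-((B + 1) * v)) * S.card ≤ 1 / 2 * (y / u ^ B) := by
      have e1 : Real.exp (-((B + 1) * v)) = 1 / (u ^ B * u) := by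
        rw [hvdef, Real.exp_neg, inv_eq_one_div]
        congr 1
        rw [mul_comm, ← Real.rpow_def_of_pos hu0, Real.rpow_add hu0, Real.rpow_one]
      rw [e1]
      have h5 : C ≤ u ^ 2 / 4 := by nlinarith
      calc 2 * (1 / (u ^ B * u)) * S.card ≤ 2 * (1 / (u ^ B * u)) * (C * (y / u)) := by gcongr
        _ = 2 * C / u ^ 2 * (y / u ^ B) := by field_simp
        _ ≤ 1 / 2 * (y / u ^ B) := by
            apply mul_le_mul_of_nonneg_right _ hyB.le
            rw [div_le_iff₀ (by positivity)]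
            linarith
    linarith

/-- **Reduction theorem.** -/
theorem reduce (B : ℝ) : ∃ K : ℝ, ∃ Y : ℕ, ∀ y : ℕ, Y ≤ y → ∀ S ⊆ Finset.Icc 1 y,
    (∀ p : ℕ, p.Prime → (p : ℝ) ≤ K * y * Real.log (Real.log y) / (Real.log y) ^ 2 →
      ∃ c : ℕ, ∀ a ∈ S, ¬ a ≡ c [MOD p]) →
    ∃ A ⊆ S, Adm A ∧ (S.card : ℝ) - y / (Real.log y) ^ B ≤ A.card := by
  obtain ⟨K, hK, h⟩ := reduce_aux (max B 1) (le_max_right _ _)
  obtain ⟨Y, hY⟩ := Filter.eventually_atTop.1 (h.and
    (tendsto_logN.eventually_ge_atTop 1))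
  refine ⟨K, Y, fun y hy S hS hm => ?_⟩
  obtain ⟨h1, hu1⟩ := hY y hy
  obtain ⟨A, hA, hAdm, hc⟩ := h1 S hS (fun p hp hpK => hm p hp (by
    refine hpK.trans (le_of_eq ?_)
    ring))
  refine ⟨A, hA, hAdm, le_trans ?_ hc⟩
  have h2 : (Real.log (y : ℝ)) ^ B ≤ (Real.log (y : ℝ)) ^ (max B 1) :=
    Real.rpow_le_rpow_of_exponent_le hu1 (le_max_left _ _)
  have h3 : 0 < (Real.log (y : ℝ)) ^ B := by
    have : 0 < Real.log (y : ℝ) := by linarith
    positivity
  have h4 : (y : ℝ) / (Real.log y) ^ (max B 1) ≤ y / (Real.log y) ^ B := by gcongr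
  linarith

end Rho2
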